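import Pool.Agent.N889.WU.Stm

/-!
Project WU (helper889), part PL: localisations of the integral closure at maximal ideals are places.
-/

set_option autoImplicit false

open Polynomial IntermediateField

namespace Pool.Agent.N316.WU

open Pool.Agent.N889.WU

universe u

section

variable {k L : Type u} [Field k] [Field L] [Algebra k L] {π : L}

theorem aeval_ne (hπ : Transcendental k π) {g : k[X]} (hg : g ≠ 0) : aeval π g ≠ 0 :=
  fun h => hπ ⟨g, hg, h⟩

theorem g_ne {g : k[X]} (hg : g.coeff 0 ≠ 0) : g ≠ 0 := by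
  rintro rfl
  simp at hg

theorem aeval_mem (f : k[X]) : aeval π f ∈ Oz k π := ⟨f, 1, by simp, by simp⟩

theorem pi_mem : π ∈ Oz k π := ⟨X, 1, by simp, by simp⟩

theorem const_mem (a : k) : algebraMap k L a ∈ Oz k π := ⟨C a, 1, by simp, by simp⟩

theorem inv_mem (hπ : Transcendental k π) {g : k[X]} (hg : g.coeff 0 ≠ 0) :
    (aeval π g)⁻¹ ∈ Oz k π :=
  ⟨1, g, hg, by rw [map_one, inv_mul_cancel₀ (aeval_ne hπ (g_ne hg))]⟩

theorem pi_ne (hπ : Transcendental k π) : π ≠ 0 := by
  rintro rfl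
  exact hπ isAlgebraic_zero

theorem pi_inv_not_mem (hπ : Transcendental k π) : π⁻¹ ∉ Oz k π := by
  rintro ⟨f, g, hg, h⟩
  have hπ0 := pi_ne hπ
  have h1 : aeval π (g - X * f) = 0 := by
    rw [map_sub, map_mul, aeval_X, ← h, ← mul_assoc, mul_inv_cancel₀ hπ0, one_mul, sub_self]
  have h2 : g - X * f = 0 := by
    by_contra hne
    exact aeval_ne hπ hne h1
  apply hg
  rw [sub_eq_zero.1 h2]
  simp

theorem isUnit_g (hπ : Transcendental k π) {g : k[X]} (hg : g.coeff 0 ≠ 0) :
    IsUnit (⟨aeval π g, aeval_mem g⟩ : Oz k π) := by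
  refine ⟨⟨⟨aeval π g, aeval_mem g⟩, ⟨(aeval π g)⁻¹, inv_mem hπ hg⟩, ?_, ?_⟩, rfl⟩
  · exact Subtype.ext (mul_inv_cancel₀ (aeval_ne hπ (g_ne hg)))
  · exact Subtype.ext (inv_mul_cancel₀ (aeval_ne hπ (g_ne hg)))

theorem not_isUnit_pi (hπ : Transcendental k π) : ¬ IsUnit (⟨π, pi_mem⟩ : Oz k π) := by
  rintro ⟨⟨a, b, hab, hba⟩, rfl : a = _⟩
  apply pi_inv_not_mem hπ
  have h : π * (b : L) = 1 := congrArg Subtype.val hab
  have : π⁻¹ = (b : L) := by
    rw [inv_eq_of_mul_eq_one_right h]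
  rw [this]
  exact b.2

theorem dvr (hπ : Transcendental k π) : IsDiscreteValuationRing (Oz k π) := by
  let P : Ideal k[X] := Ideal.span {X}
  have hP : P.IsPrime := (Ideal.span_singleton_prime X_ne_zero).2 prime_X
  have hP0 : P ≠ ⊥ := by
    intro h
    exact X_ne_zero (Ideal.span_singleton_eq_bot.1 h)
  letI : Algebra k[X] (Oz k π) :=
    ((aeval π : k[X] →ₐ[k] L).toRingHom.codRestrict (Oz k π) aeval_mem).toAlgebra
  have hmem : ∀ g : k[X], g ∈ P ↔ g.coeff 0 = 0 := fun g => by
    rw [Ideal.mem_span_singleton, X_dvd_iff]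
  have hloc : IsLocalization.AtPrime (Oz k π) P := by
    refine ⟨?_, ?_, ?_⟩
    · rintro ⟨g, hg⟩
      exact isUnit_g hπ (fun h => hg ((hmem g).2 h))
    · rintro ⟨x, f, g, hg, h⟩
      exact ⟨(f, ⟨g, fun hm => hg ((hmem g).1 hm)⟩), Subtype.ext h⟩
    · intro x y hxy
      refine ⟨1, ?_⟩
      have h1 : aeval π x = aeval π y := congrArg Subtype.val hxy
      have h2 : x - y = 0 := by
        by_contra hne
        apply aeval_ne hπ hne
        rw [map_sub, h1, sub_self]
      rw [sub_eq_zero.1 h2]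
  exact IsLocalization.AtPrime.isDiscreteValuationRing_of_dedekind_domain k[X] hP0 (Oz k π)

theorem le_adjoin (hπ : Transcendental k π) {x : L} (hx : x ∈ Oz k π) : x ∈ k⟮π⟯ := by
  obtain ⟨f, g, hg, h⟩ := hx
  exact (mem_adjoin_simple_iff k x).2 ⟨f, g, (eq_div_iff (aeval_ne hπ (g_ne hg))).2 h⟩

theorem ded (h : SepFin k π) : IsDedekindDomain (integralClosure (Oz k π) L) ∧
    IsFractionRing (integralClosure (Oz k π) L) L := by
  obtain ⟨hπ, hfin, hsep⟩ := h
  haveI := dvr hπ
  letI : Algebra (Oz k π) k⟮π⟯ := RingHom.toAlgebra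
    { toFun := fun x => ⟨x.1, le_adjoin hπ x.2⟩
      map_one' := rfl
      map_mul' := fun _ _ => rfl
      map_zero' := rfl
      map_add' := fun _ _ => rfl }
  haveI : IsScalarTower (Oz k π) k⟮π⟯ L := IsScalarTower.of_algebraMap_eq fun x => rfl
  haveI : FaithfulSMul (Oz k π) k⟮π⟯ := (faithfulSMul_iff_algebraMap_injective _ _).2 (by
    intro x y hxy
    have h2 : (x : L) = (y : L) := congrArg (fun z : k⟮π⟯ => (z : L)) hxy
    exact Subtype.ext h2)
  haveI : IsFractionRing (Oz k π) k⟮π⟯ := by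
    refine IsFractionRing.of_field _ _ fun z => ?_
    obtain ⟨r, s, hrs⟩ := (mem_adjoin_simple_iff k (z : L)).1 z.2
    exact ⟨⟨_, aeval_mem r⟩, ⟨_, aeval_mem s⟩, Subtype.ext hrs⟩
  exact ⟨integralClosure.isDedekindDomain (Oz k π) k⟮π⟯ L,
    integralClosure.isFractionRing_of_finite_extension k⟮π⟯ L⟩

end

theorem t_PL : S_PL.{u} := by
  intro k L _ _ _ _ π hS m hm
  obtain ⟨hded, hfr⟩ := ded hS
  have hπ := hS.1
  haveI := dvr hπ
  haveI : m.IsMaximal := hm
  have hmp : m.IsPrime := hm.isPrime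
  have hpi : algebraMap (Oz k π) (integralClosure (Oz k π) L) ⟨π, pi_mem⟩ ∈ m := by
    have h1 := Ideal.isMaximal_comap_of_isIntegral_of_isMaximal (R := Oz k π) m
    have h2 := IsLocalRing.eq_maximalIdeal h1
    have h3 : (⟨π, pi_mem⟩ : Oz k π) ∈ IsLocalRing.maximalIdeal (Oz k π) :=
      (IsLocalRing.mem_maximalIdeal _).2 (not_isUnit_pi hπ)
    rw [← h2] at h3
    exact h3
  have hm0 : m ≠ ⊥ := by
    rintro rfl
    rw [Ideal.mem_bot] at hpi
    apply pi_ne hπ
    have := congrArg (algebraMap (integralClosure (Oz k π) L) L) hpi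
    exact this
  -- the residue field
  let cst : k →+* integralClosure (Oz k π) L :=
    (algebraMap (Oz k π) (integralClosure (Oz k π) L)).comp
      ((algebraMap k L).codRestrict (Oz k π) const_mem)
  let ψ : k →+* (integralClosure (Oz k π) L) ⧸ m := (Ideal.Quotient.mk m).comp cst
  let φ : Oz k π →+* (integralClosure (Oz k π) L) ⧸ m :=
    (Ideal.Quotient.mk m).comp (algebraMap (Oz k π) (integralClosure (Oz k π) L))
  have hφ : ∀ o : Oz k π, ∃ a : k, ψ a = φ o := by
    have hpol : ∀ f : k[X], φ ⟨aeval π f, aeval_mem f⟩ = ψ (f.coeff 0) := by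
      intro f
      have e : (⟨aeval π f, aeval_mem f⟩ : Oz k π) =
          ⟨π, pi_mem⟩ * ⟨aeval π f.divX, aeval_mem _⟩ +
            ⟨algebraMap k L (f.coeff 0), const_mem _⟩ := by
        apply Subtype.ext
        change aeval π f = π * aeval π f.divX + algebraMap k L (f.coeff 0)
        conv_lhs => rw [← Polynomial.X_mul_divX_add f]
        rw [map_add, map_mul, aeval_X, aeval_C]
      rw [e, map_add, map_mul]
      have h0 : φ ⟨π, pi_mem⟩ = 0 := Ideal.Quotient.eq_zero_iff_mem.2 hpi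
      rw [h0, zero_mul, zero_add]
      rfl
    rintro ⟨x, f, g, hg, h⟩
    refine ⟨f.coeff 0 / g.coeff 0, ?_⟩
    have e : (⟨x, f, g, hg, h⟩ : Oz k π) * ⟨aeval π g, aeval_mem g⟩ = ⟨aeval π f, aeval_mem f⟩ :=
      Subtype.ext h
    have e2 := congrArg φ e
    rw [map_mul, hpol, hpol] at e2
    letI := Ideal.Quotient.field m
    have hg' : ψ (g.coeff 0) ≠ 0 := (map_ne_zero ψ).2 hg
    rw [map_div₀ ψ, ← e2, mul_div_assoc, div_self hg', mul_one]
  have hint : ψ.IsIntegral := by
    intro y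
    obtain ⟨b, rfl⟩ := Ideal.Quotient.mk_surjective y
    have hb : IsIntegral (Oz k π) b := Algebra.IsIntegral.isIntegral b
    obtain ⟨P, hPm, hP⟩ := hb
    have hl : P.map φ ∈ Polynomial.lifts ψ := by
      rw [Polynomial.lifts_iff_coeff_lifts]
      intro n
      obtain ⟨a, ha⟩ := hφ (P.coeff n)
      exact ⟨a, by rw [ha, coeff_map]⟩
    obtain ⟨Q, hQ, -, hQm⟩ := lifts_and_natDegree_eq_and_monic hl (hPm.map φ)
    refine ⟨Q, hQm, ?_⟩
    rw [← eval_map, hQ, eval_map]
    have := congrArg (Ideal.Quotient.mk m) hP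
    rw [map_zero, Polynomial.hom_eval₂] at this
    exact this
  have hres : ∀ b : integralClosure (Oz k π) L, ∃ β : k, b - cst β ∈ m := by
    intro b
    letI := Ideal.Quotient.field m
    obtain ⟨β, hβ⟩ := (IsAlgClosed.ringHom_bijective_of_isIntegral ψ hint).2 (Ideal.Quotient.mk m b)
    exact ⟨β, Ideal.Quotient.eq.1 hβ.symm⟩
  -- the localisation
  have hle : m.primeCompl ≤ nonZeroDivisors (integralClosure (Oz k π) L) :=
    m.primeCompl_le_nonZeroDivisors
  let C := Localization.subalgebra.ofField L m.primeCompl hle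
  haveI hloc : IsLocalization.AtPrime C m :=
    Localization.subalgebra.isLocalization_ofField L m.primeCompl hle
  haveI hdvr : IsDiscreteValuationRing C :=
    IsLocalization.AtPrime.isDiscreteValuationRing_of_dedekind_domain _ hm0 C
  haveI : IsFractionRing C L := Localization.subalgebra.isFractionRing_ofField L m.primeCompl hle
  have hC : ∀ x : L, x ∈ C ↔ ∃ b r : integralClosure (Oz k π) L, r ∉ m ∧ x * (r : L) = (b : L) := by
    intro x
    have hr0 : ∀ r : integralClosure (Oz k π) L, r ∉ m → (r : L) ≠ 0 := by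
      intro r hr h
      apply hr
      have : r = 0 := Subtype.ext h
      rw [this]
      exact m.zero_mem
    constructor
    · rintro ⟨b, r, hr, rfl⟩
      refine ⟨b, r, hr, ?_⟩
      change (b : L) * (r : L)⁻¹ * (r : L) = b
      rw [mul_assoc, inv_mul_cancel₀ (hr0 r hr), mul_one]
    · rintro ⟨b, r, hr, h⟩
      refine ⟨b, r, hr, ?_⟩
      change x = (b : L) * (r : L)⁻¹
      rw [← h, mul_assoc, mul_inv_cancel₀ (hr0 r hr), mul_one]
  have hval : ∀ x : L, x ∈ C.toSubring ∨ x⁻¹ ∈ C.toSubring := by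
    intro x
    rcases ValuationRing.isInteger_or_isInteger C x with ⟨a, ha⟩ | ⟨a, ha⟩
    · left
      rw [← ha]
      exact a.2
    · right
      rw [← ha]
      exact a.2
  let A : ValuationSubring L := ValuationSubring.ofSubring C.toSubring hval
  have hA : ∀ x : L, x ∈ A ↔ x ∈ C := fun x => Iff.rfl
  have hcst : ∀ a : k, (cst a : L) = algebraMap k L a := fun a => rfl
  refine ⟨A, ⟨?_, ?_, ?_⟩, fun x => (hA x).trans (hC x)⟩
  · intro a
    rw [hA, hC]
    refine ⟨cst a, 1, ?_, ?_⟩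
    · exact (Ideal.ne_top_iff_one m).1 hm.ne_top
    · rw [hcst]
      change algebraMap k L a * 1 = _
      rw [mul_one]
  · let e : C ≃+* A :=
      { toFun := fun x => ⟨x.1, x.2⟩
        invFun := fun x => ⟨x.1, x.2⟩
        left_inv := fun _ => rfl
        right_inv := fun _ => rfl
        map_mul' := fun _ _ => rfl
        map_add' := fun _ _ => rfl }
    exact IsDiscreteValuationRing.RingEquivClass.isDiscreteValuationRing e
  · intro x hx
    obtain ⟨b, r, hr, h⟩ := (hC x).1 ((hA x).1 hx)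
    obtain ⟨β, hβ⟩ := hres b
    obtain ⟨ρ, hρ⟩ := hres r
    have hρ0 : ρ ≠ 0 := by
      rintro rfl
      rw [map_zero, sub_zero] at hρ
      exact hr hρ
    refine ⟨β / ρ, ?_⟩
    rw [ValuationSubring.mem_nonunits_iff_or]
    by_cases hy0 : x - algebraMap k L (β / ρ) = 0
    · exact Or.inl hy0
    right
    intro hy
    obtain ⟨b', r', hr', h'⟩ := (hC _).1 ((hA _).1 hy)
    have hc : b - cst (β / ρ) * r ∈ m := by
      have e1 : b - cst (β / ρ) * r = (b - cst β) - cst (β / ρ) * (r - cst ρ) := by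
        have e2 : cst β = cst (β / ρ) * cst ρ := by
          rw [← map_mul, div_mul_cancel₀ _ hρ0]
        rw [e2]
        ring
      rw [e1]
      exact m.sub_mem hβ (m.mul_mem_left _ hρ)
    have hrr : r * r' = (b - cst (β / ρ) * r) * b' := by
      apply Subtype.ext
      change (r : L) * (r' : L) = ((b : L) - algebraMap k L (β / ρ) * (r : L)) * (b' : L)
      rw [← h, ← h', ← sub_mul]
      field_simp
    have : r * r' ∈ m := by
      rw [hrr]
      exact m.mul_mem_right _ hc
    rcases hmp.mem_or_mem this with h1 | h1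
    · exact hr h1
    · exact hr' h1

end Pool.Agent.N316.WU

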